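import Pool.Agent.H86.RG.Targets2

/-! Hölder continuous sums (row E6SM0 of reg). -/

set_option autoImplicit false

namespace Pool.Agent.H95.RG6

open MeasureTheory Metric Set Filter Topology Pool.Agent.H87.SN Pool.Agent.H86.RG
open scoped ContDiff RealInnerProductSpace ENNReal

theorem summable_geo {R s : ℝ} (hR : 0 < R) (hs : 0 < s) :
    Summable fun k : ℕ => (R / 2 ^ k) ^ s := by
  have h1 : ∀ k : ℕ, (R / 2 ^ k) ^ s = R ^ s * ((1 / 2 : ℝ) ^ s) ^ k := by
    intro k
    have e : R / 2 ^ k = R * (1 / 2 : ℝ) ^ k := by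
      rw [one_div, inv_pow, div_eq_mul_inv]
    rw [e, Real.mul_rpow hR.le (by positivity), Real.rpow_pow_comm (by norm_num)]
  simp_rw [h1]
  refine (summable_geometric_of_lt_one (by positivity) ?_).mul_left _
  exact Real.rpow_lt_one (by norm_num) (by norm_num) hs

theorem pf_SM0 (hINT : T_INT) : T_SM0 := by
  intro n σ θ A R x₀ w hθ hθσ hθ1 hR hA hw hw0 hw1
  have hsum : ∀ x ∈ ball x₀ R, Summable fun k => w k x := by
    intro x hx
    refine Summable.of_norm_bounded (g := fun k : ℕ => A * (R / 2 ^ k) ^ σ)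
      ((summable_geo hR (hθ.trans hθσ)).mul_left A) fun k => ?_
    rw [Real.norm_eq_abs]
    exact hw0 k x hx
  refine ⟨hsum, (2 + n) * A * ∑' k : ℕ, (R / 2 ^ k) ^ (σ - θ), ?_⟩
  intro x hx y hy
  rw [← (hsum x hx).tsum_sub (hsum y hy)]
  have hs := ((summable_geo hR (sub_pos.2 hθσ)).hasSum.mul_left ((2 + (n : ℝ)) * A)).mul_right
    (‖x - y‖ ^ θ)
  have h := tsum_of_norm_bounded (f := fun k => w k x - w k y) hs fun k => by
    rw [Real.norm_eq_abs]
    exact hINT n σ θ A (R / 2 ^ k) R x₀ (w k) hθ hθ1 (by positivity) hA (hw k) (hw0 k) (hw1 k)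
      x hx y hy
  rw [Real.norm_eq_abs] at h
  exact h

end Pool.Agent.H95.RG6
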